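import Pool.Agent.PageNum.Upper
import Pool.Agent.PageNum.Limit

set_option autoImplicit false

open Pool.Agent.PageNum

namespace Pool.Agent.Results.MP_6776bf_co.ExactValues

/-- For every `k ≥ 3` the largest local page number and the largest union page number of a
`k`-tree are both `k + 1`. -/
theorem result (k : ℕ) (hk : 3 ≤ k) :
    IsGreatest {m | ∃ (V : Type) (G : SimpleGraph V), IsKTree k G ∧ localPageNumber G = m} (k + 1) ∧
    IsGreatest {m | ∃ (V : Type) (G : SimpleGraph V), IsKTree k G ∧ unionPageNumber G = m}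
      (k + 1) := by
  obtain ⟨V, G, hG, hnot⟩ := exists_not_hasLocal hk
  have hfin : Finite V := hG.finite
  refine ⟨⟨⟨V, G, hG, ?_⟩, ?_⟩, ⟨⟨V, G, hG, ?_⟩, ?_⟩⟩
  · apply le_antisymm
    · exact Nat.sInf_le hG.hasLocal
    · refine le_csInf ⟨_, hG.hasLocal⟩ ?_
      intro m hm
      by_contra hlt
      exact hnot (HasLocal.mono hm (by omega))
  · rintro m ⟨W, H, hH, rfl⟩
    exact Nat.sInf_le hH.hasLocal
  · apply le_antisymm
    · exact Nat.sInf_le hG.hasUnion
    · refine le_csInf ⟨_, hG.hasUnion⟩ ?_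
      intro m hm
      by_contra hlt
      exact hnot (HasLocal.mono (HasUnion.hasLocal hm) (by omega))
  · rintro m ⟨W, H, hH, rfl⟩
    exact Nat.sInf_le hH.hasUnion

end Pool.Agent.Results.MP_6776bf_co.ExactValues
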